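import Pool.Agent.helper18.DH.SpecM
import Pool.Agent.helper64.D2.SpecS

/-!
# d2: SZR (part M): the sizes, for given `Q`, `R` (helper79)
-/

set_option autoImplicit false

open Filter Topology MeasureTheory
open scoped commutatorElement

namespace Pool.Agent.helper90.DH

open Pool.Agent.helper64.D2

theorem SZR_mono {g : DD} {a b : ℝ} (h : Sz g a) (hab : a ≤ b) : Sz g b := fun x => (h x).trans hab

theorem SZR (hSZC : SZC_stmt) (hNCA : NCA_stmt) (hNSZ : NSZ_stmt) (hQPR : QPR_stmt) (hCOC : COC_stmt) : SZR_stmt := by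
  refine ⟨2000, by norm_num, ?_⟩
  intro q Y G Q R ε d L γ hq hF hε hγ hK hG hQ hR
  obtain ⟨-, hS2, hS3, hS4, -⟩ := hSZC
  have hq1 : (1 : ℝ) ≤ q := by exact_mod_cast hq
  have hq0 : (0 : ℝ) < q := by linarith
  have hqγ : 0 ≤ (q : ℝ) * γ := mul_nonneg hq0.le hγ
  have hγq : γ ≤ q * γ := by nlinarith
  obtain ⟨e, he⟩ : ∃ e : ℝ, e = ε + q * γ := ⟨_, rfl⟩
  rw [← he] at hK ⊢
  have he0 : 0 ≤ e := by rw [he]; linarith
  have he1 : e ≤ 1 / 2000 := by linarith
  have hεe : ε ≤ e := by rw [he]; linarith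
  have hγe : γ ≤ e := by rw [he]; linarith
  have hqγe : (q : ℝ) * γ ≤ e := by rw [he]; linarith
  obtain ⟨hQ1, hQq, hQ3⟩ := hQPR q Y Q ε d L hq hF hε (by linarith) hQ
  have hQinv : ∀ k < q, Sz ((Q (k + 1))⁻¹) (2 * ε) := by
    intro k hk
    exact hS4 _ _ (hQ1 (k + 1) (by omega)).1 (by linarith)
  have hE : ∀ k < q, Sz (R (k + 1)) (16 * e) → Sz (G k * R (k + 1)) (18 * e) := by
    intro k hk hRk
    refine SZR_mono (hS3 _ _ _ _ (hG k hk) hRk (by linarith) (by linarith)) ?_
    nlinarith [mul_nonneg hγ he0]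
  have hC : ∀ k < q, Sz (R (k + 1)) (16 * e) → Sz (Cm G Q R k) (21 * e) := by
    intro k hk hRk
    refine SZR_mono (hS3 _ _ _ _ (hQinv k hk) (hE k hk hRk) (by linarith) (by linarith)) ?_
    nlinarith [mul_nonneg hε he0]
  have hFm : ∀ k < q, Sz (Fm Q k) (4 * ε) := by
    intro k hk
    refine SZR_mono (hS3 _ _ _ _ (hQ1 k hk.le).1 (hQinv k hk) (by linarith) (by linarith)) ?_
    nlinarith
  have main : ∀ n : ℕ, n ≤ q → ∀ i : ℕ, q - n ≤ i → i ≤ q → Sz (R i) (16 * e) := by
    intro n
    induction n with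
    | zero =>
      intro _ i h1 h2
      have : i = q := by omega
      rw [this, hR.1]
      intro x
      rw [((hNCA.2.2.2.2.2.2.2.2 x).2.2)]
      simp
      exact he0
    | succ n ih =>
      intro hn i h1 h2
      by_cases hi : q - n ≤ i
      · exact ih (by omega) i hi h2
      · have hiq : i < q := by omega
        have hup : ∀ k, i < k → k ≤ q → Sz (R k) (16 * e) := fun k hk hkq => ih (by omega) k (by omega) hkq
        have hN : ∀ x, |Nn (R i) x| ≤ 7 * e := by
          intro x
          rw [hCOC q G Q R hR i h2 x]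
          refine (Finset.abs_sum_le_sum_abs _ _).trans ?_
          have hterm : ∀ k ∈ Finset.Ico i q, |(Nn (Q k) (ev (Cm G Q R k) x) - Nn (Q (k + 1)) (ev (Cm G Q R k) x)) * deriv (ev (Cm G Q R k)) x +
              (Nn (G k)⁻¹ (ev (Fm Q k) (ev (Em G R k) x)) * deriv (ev (Fm Q k)) (ev (Em G R k) x) - Nn (G k)⁻¹ (ev (Em G R k) x)) * deriv (ev (Em G R k)) x| ≤
              2 * ε / q * (11 / 10) + 7 * γ := by
            intro k hk
            obtain ⟨hk1, hk2⟩ := Finset.mem_Ico.mp hk
            have hRk := hup (k + 1) (by omega) (by omega)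
            have a1 : |Nn (Q k) (ev (Cm G Q R k) x) - Nn (Q (k + 1)) (ev (Cm G Q R k) x)| ≤ 2 * ε / q := (hQ3 k hk2 _).2.2.1
            have a2 : |deriv (ev (Cm G Q R k)) x| ≤ 11 / 10 := by
              have := (hS2 _ _ (hC k hk2 hRk) x).1
              rw [abs_le] at this ⊢
              constructor <;> linarith [this.1, this.2]
            have a3 : |deriv (ev (Em G R k)) x| ≤ 1 + 18 / 2000 := by
              have := (hS2 _ _ (hE k hk2 hRk) x).1
              rw [abs_le] at this
              rw [abs_le]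
              unfold Em
              constructor <;> linarith [this.1, this.2]
            have a4 : ∀ z, |deriv (ev (Fm Q k)) z| ≤ 1 + 4 / 2000 := by
              intro z
              have := (hS2 _ _ (hFm k hk2) z).1
              rw [abs_le] at this
              rw [abs_le]
              constructor <;> linarith [this.1, this.2]
            have a5 : ∀ z, |Nn (G k)⁻¹ z| ≤ 3 * γ := by
              intro z
              have hGi : Sz (G k)⁻¹ (2 * γ) := hS4 _ _ (hG k hk2) (by linarith)
              refine (hNSZ.1 _ _ hGi (by linarith) z).trans ?_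
              nlinarith
            have b1 : |(Nn (Q k) (ev (Cm G Q R k) x) - Nn (Q (k + 1)) (ev (Cm G Q R k) x)) * deriv (ev (Cm G Q R k)) x| ≤ 2 * ε / q * (11 / 10) := by
              rw [abs_mul]
              exact mul_le_mul a1 a2 (abs_nonneg _) (by positivity)
            have b2 : |Nn (G k)⁻¹ (ev (Fm Q k) (ev (Em G R k) x)) * deriv (ev (Fm Q k)) (ev (Em G R k) x)| ≤ 3 * γ * (1 + 4 / 2000) := by
              rw [abs_mul]
              exact mul_le_mul (a5 _) (a4 _) (abs_nonneg _) (by positivity)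
            have b3 : |Nn (G k)⁻¹ (ev (Fm Q k) (ev (Em G R k) x)) * deriv (ev (Fm Q k)) (ev (Em G R k) x) - Nn (G k)⁻¹ (ev (Em G R k) x)| ≤ 3 * γ * (1 + 4 / 2000) + 3 * γ := by
              exact (abs_sub _ _).trans (add_le_add b2 (a5 _))
            have b4 : |(Nn (G k)⁻¹ (ev (Fm Q k) (ev (Em G R k) x)) * deriv (ev (Fm Q k)) (ev (Em G R k) x) - Nn (G k)⁻¹ (ev (Em G R k) x)) * deriv (ev (Em G R k)) x| ≤
                (3 * γ * (1 + 4 / 2000) + 3 * γ) * (1 + 18 / 2000) := by
              rw [abs_mul]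
              exact mul_le_mul b3 a3 (abs_nonneg _) (by positivity)
            refine (abs_add_le _ _).trans ((add_le_add b1 b4).trans ?_)
            have : (3 * γ * (1 + 4 / 2000) + 3 * γ) * (1 + 18 / 2000) ≤ 7 * γ := by nlinarith
            linarith
          refine (Finset.sum_le_sum hterm).trans ?_
          rw [Finset.sum_const, Nat.card_Ico, nsmul_eq_mul]
          have hc : ((q - i : ℕ) : ℝ) ≤ q := by exact_mod_cast Nat.sub_le q i
          have ht : 0 ≤ 2 * ε / q * (11 / 10) + 7 * γ := by positivity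
          refine (mul_le_mul_of_nonneg_right hc ht).trans ?_
          have hexp : (q : ℝ) * (2 * ε / q * (11 / 10) + 7 * γ) = 2 * ε * (11 / 10) + 7 * (q * γ) := by
            field_simp
          rw [hexp, he]
          linarith
        refine SZR_mono (hNSZ.2 _ _ hN (by linarith)) ?_
        nlinarith
  have hRall : ∀ i ≤ q, Sz (R i) (16 * e) := fun i hi => main q le_rfl i (by omega) hi
  refine ⟨fun i hi => ⟨(hQ1 i hi).1, SZR_mono (hRall i hi) (by linarith)⟩, fun i hi => ⟨SZR_mono (hQinv i hi) (by linarith), ?_, ?_⟩⟩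
  · exact SZR_mono (hE i hi (hRall (i + 1) (by omega))) (by linarith)
  · exact SZR_mono (hC i hi (hRall (i + 1) (by omega))) (by linarith)

end Pool.Agent.helper90.DH
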